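import Pool.Agent.H23.FC.Targets
import Pool.Agent.H17.FM.INV
import Pool.Agent.H75.FM.THL

/-!
# Row KIN: the inversion of the function `Psm`
-/

set_option autoImplicit false

open MeasureTheory Set Filter
open scoped Real Topology

namespace Pool.Agent.H94.FC

open Pool.Agent.H31.CN Pool.Agent.H89.FM Pool.Agent.H89.FC Pool.Agent.H23.FC

open Pool.Agent.H17.FM (Fk Fk_bound Fk_summable Fk_deriv)

/-- the angular factor has norm at most one -/
theorem an_norm_le (x y : ℝ) (v : ℤ × ℤ) (m : ℤ) : ‖an (x : ℂ) (y : ℂ) v ^ m‖ ≤ 1 := by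
  have h1 : ((v.1 : ℂ) + v.2 * ((x : ℂ) - y * Complex.I)) =
      (starRingEnd ℂ) ((v.1 : ℂ) + v.2 * ((x : ℂ) + y * Complex.I)) := by
    simp only [map_add, map_mul, Complex.conj_ofReal, Complex.conj_I, map_intCast]
    ring
  have h2 : ‖an (x : ℂ) (y : ℂ) v‖ = 0 ∨ ‖an (x : ℂ) (y : ℂ) v‖ = 1 := by
    unfold Pool.Agent.H89.FC.an
    rw [h1, norm_div, Complex.norm_conj]
    by_cases h : ‖(v.1 : ℂ) + v.2 * ((x : ℂ) + y * Complex.I)‖ = 0
    · left
      rw [h, zero_div]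
    · right
      exact div_self h
  rw [norm_zpow]
  rcases h2 with h | h
  · rw [h]
    by_cases hm : m = 0
    · rw [hm, zpow_zero]
    · rw [zero_zpow m hm]
      exact zero_le_one
  · rw [h, one_zpow]

/-- the case of the weight zero -/
theorem psm_zero (n : ℕ) (L : AddSubgroup (ℤ × ℤ)) (x y : ℝ) (w : ℂ) :
    Psm 0 n L x y w = Psr n L x y w := by
  unfold Psm Psr
  refine tsum_congr fun v => ?_
  unfold psm pst
  by_cases h : v ∈ L ∧ v ≠ 0
  · rw [if_pos h, if_pos h]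
    unfold phm phc
    simp only [Int.natAbs_zero, Nat.cast_zero, pow_zero, zpow_zero]
    ring
  · rw [if_neg h, if_neg h]

/-- the functional equation of the second order operator -/
theorem fe_alg {k : ℕ} (hk : 1 ≤ k) {w A f f1 f2 a b d : ℂ} (hw : w ≠ 0)
    (h0 : a = w ^ (2 * k + 1) * f)
    (h1 : b * (-(w ^ 2)⁻¹) = ((2 * k + 1 : ℕ) : ℂ) * w ^ (2 * k) * f + w ^ (2 * k + 1) * f1)
    (h2 : (d * (-(w ^ 2)⁻¹)) * (-(w ^ 2)⁻¹) + b * (2 * (w ^ 3)⁻¹) =
      (((2 * k + 1 : ℕ) : ℂ) * (((2 * k : ℕ) : ℂ) * w ^ (2 * k - 1))) * f +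
        ((2 * k + 1 : ℕ) : ℂ) * w ^ (2 * k) * f1 +
        ((((2 * k + 1 : ℕ) : ℂ) * w ^ (2 * k)) * f1 + w ^ (2 * k + 1) * f2)) :
    A * w⁻¹ ^ k * (((k : ℂ) ^ 2 + k) * a + (2 * k + 2) * w⁻¹ * b + w⁻¹ ^ 2 * d) =
      w * (A * w ^ k * (((k : ℂ) ^ 2 + k) * f + (2 * k + 2) * w * f1 + w ^ 2 * f2)) := by
  obtain ⟨j, rfl⟩ : ∃ j, k = j + 1 := ⟨k - 1, by omega⟩
  have e0 : 2 * (j + 1) - 1 = 2 * j + 1 := by omega
  rw [e0] at h2
  have hb : b = -(w ^ 2) * (((2 * (j + 1) + 1 : ℕ) : ℂ) * w ^ (2 * (j + 1)) * f +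
      w ^ (2 * (j + 1) + 1) * f1) := by
    rw [← h1]
    field_simp
  have hd : d = w ^ 4 * ((((2 * (j + 1) + 1 : ℕ) : ℂ) *
      (((2 * (j + 1) : ℕ) : ℂ) * w ^ (2 * j + 1))) * f +
        ((2 * (j + 1) + 1 : ℕ) : ℂ) * w ^ (2 * (j + 1)) * f1 +
        ((((2 * (j + 1) + 1 : ℕ) : ℂ) * w ^ (2 * (j + 1))) * f1 +
          w ^ (2 * (j + 1) + 1) * f2)) - 2 * w * b := by
    rw [← h2]
    field_simp
    ring
  rw [hd, hb, h0]
  obtain ⟨W, hW⟩ : ∃ W, W = w ^ j := ⟨_, rfl⟩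
  have e1 : w ^ (2 * (j + 1) + 1) = W ^ 2 * w ^ 3 := by
    rw [hW]; ring
  have e2 : w ^ (2 * (j + 1)) = W ^ 2 * w ^ 2 := by
    rw [hW]; ring
  have e3 : w ^ (2 * j + 1) = W ^ 2 * w := by
    rw [hW]; ring
  have e4 : w⁻¹ ^ (j + 1) = W⁻¹ * w⁻¹ := by
    rw [hW, pow_succ, inv_pow]
  have e5 : w ^ (j + 1) = W * w := by
    rw [hW, pow_succ]
  have hW0 : W ≠ 0 := by
    rw [hW]
    exact pow_ne_zero _ hw
  rw [e1, e2, e3, e4, e5]
  push_cast
  field_simp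
  ring

theorem pf_INVm (_hTHLm : T_THLm) (hTHHm : T_THHm) (hINV : T_INV) : T_INVm := by
  classical
  intro m n L x y hn hL hy
  by_cases hm : m = 0
  · obtain ⟨h1, h2⟩ := hINV n L x y hn hL hy
    have e : Psm m n L x y = Psr n L x y := by
      funext w
      rw [hm]
      exact psm_zero n L x y w
    rw [e]
    exact ⟨h1, h2⟩
  have hn0 : (0 : ℝ) < n := by exact_mod_cast hn
  obtain ⟨k, hk⟩ : ∃ k, k = m.natAbs := ⟨_, rfl⟩
  have hk1 : 1 ≤ k := by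
    rw [hk]
    exact Int.natAbs_pos.2 hm
  set r : ℤ × ℤ → ℝ := fun v => qz x y v / n with hr
  set c : ℤ × ℤ → ℂ := fun v => if v ∈ L ∧ v ≠ 0 then an (x : ℂ) (y : ℂ) v ^ m else 0 with hc
  have r0 : ∀ v, 0 ≤ r v := fun v => by
    simp only [hr, qz]
    positivity
  have c1 : ∀ v, ‖c v‖ ≤ 1 := fun v => by
    simp only [hc]
    split_ifs
    · exact an_norm_le x y v m
    · simp
  have hs : ∀ u : ℝ, 0 < u → Summable fun v => Real.exp (-(2 * π * u * r v)) := fun u hu =>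
    Pool.Agent.H75.FM.summ_all x y u n hn hy hu
  obtain ⟨A, hA⟩ : ∃ A : ℂ, A = ((-(2 * π) : ℂ) ^ k)⁻¹ := ⟨_, rfl⟩
  have hπ : (-(2 * π) : ℂ) ^ k ≠ 0 := by
    refine pow_ne_zero _ (neg_ne_zero.2 (mul_ne_zero two_ne_zero ?_))
    exact_mod_cast Real.pi_pos.ne'
  have hA1 : A * (-(2 * π) : ℂ) ^ k = 1 := by
    rw [hA]
    exact inv_mul_cancel₀ hπ
  have hF0 : ∀ w, ThM m n L x y w = A * w ^ k * Fk r c k w := by
    intro w
    unfold ThM Fk
    rw [← tsum_mul_left]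
    refine tsum_congr fun v => ?_
    unfold thm
    by_cases hv : v ∈ L ∧ v ≠ 0
    · rw [if_pos hv]
      have hcv : c v = an (x : ℂ) (y : ℂ) v ^ m := by simp only [hc]; exact if_pos hv
      rw [hcv, ← hk]
      change an (x : ℂ) (y : ℂ) v ^ m * (w * ((r v : ℝ) : ℂ)) ^ k *
        Complex.exp (-(2 * π * w * ((r v : ℝ) : ℂ))) = _
      calc an (x : ℂ) (y : ℂ) v ^ m * (w * ((r v : ℝ) : ℂ)) ^ k *
            Complex.exp (-(2 * π * w * ((r v : ℝ) : ℂ)))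
          = (A * (-(2 * π) : ℂ) ^ k) * (an (x : ℂ) (y : ℂ) v ^ m * (w ^ k * ((r v : ℝ) : ℂ) ^ k) *
            Complex.exp (-(2 * π * w * ((r v : ℝ) : ℂ)))) := by
            rw [hA1, mul_pow, one_mul]
        _ = A * w ^ k * (an (x : ℂ) (y : ℂ) v ^ m * ((-(2 * π) * (r v : ℂ)) ^ k *
            Complex.exp (-(2 * π * w * (r v : ℂ))))) := by
            rw [mul_pow]
            ring
        _ = _ := by
            rw [neg_mul]
    · rw [if_neg hv]
      have hcv : c v = 0 := by simp only [hc]; exact if_neg hv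
      rw [hcv]
      ring
  have hP : ∀ w : ℂ, 0 < w.re → Psm m n L x y w = A * w ^ k * (((k : ℂ) ^ 2 + k) * Fk r c k w +
      (2 * k + 2) * w * Fk r c (k + 1) w + w ^ 2 * Fk r c (k + 2) w) := by
    intro w hw
    have s0 := (Fk_summable r c r0 c1 hs k w hw).mul_left ((k : ℂ) ^ 2 + k)
    have s1 := (Fk_summable r c r0 c1 hs (k + 1) w hw).mul_left ((2 * k + 2) * w)
    have s2 := (Fk_summable r c r0 c1 hs (k + 2) w hw).mul_left (w ^ 2)
    unfold Psm Fk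
    rw [← tsum_mul_left, ← tsum_mul_left, ← tsum_mul_left, ← s0.tsum_add s1,
      ← (s0.add s1).tsum_add s2, ← tsum_mul_left]
    refine tsum_congr fun v => ?_
    unfold psm
    by_cases hv : v ∈ L ∧ v ≠ 0
    · rw [if_pos hv]
      have hcv : c v = an (x : ℂ) (y : ℂ) v ^ m := by simp only [hc]; exact if_pos hv
      rw [hcv, ← hk]
      change an (x : ℂ) (y : ℂ) v ^ m * phm k (w * ((r v : ℝ) : ℂ)) = _
      unfold phm
      have e : -(2 * π * (w * (r v : ℂ))) = -(2 * π * w * (r v : ℂ)) := by ring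
      have e1 : (-(2 * π * r v) : ℂ) ^ (k + 1) = (-(2 * π) : ℂ) ^ k * (r v : ℂ) ^ k *
          (-(2 * π * r v)) := by
        rw [pow_succ, ← neg_mul, mul_pow]
      have e2 : (-(2 * π * r v) : ℂ) ^ (k + 2) = (-(2 * π) : ℂ) ^ k * (r v : ℂ) ^ k *
          (-(2 * π * r v)) ^ 2 := by
        rw [pow_add, ← neg_mul, mul_pow]
      have e3 : (-(2 * π * r v) : ℂ) ^ k = (-(2 * π) : ℂ) ^ k * (r v : ℂ) ^ k := by
        rw [← neg_mul, mul_pow]
      rw [e, e1, e2, e3, mul_pow]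
      obtain ⟨B, hB⟩ : ∃ B : ℂ, B = (-(2 * π) : ℂ) ^ k := ⟨_, rfl⟩
      rw [← hB] at hA1 ⊢
      obtain ⟨E, hE⟩ : ∃ E : ℂ, E = Complex.exp (-(2 * π * w * (r v : ℂ))) := ⟨_, rfl⟩
      rw [← hE]
      linear_combination (-(an (x : ℂ) (y : ℂ) v ^ m * ((((k : ℂ) - 2 * π * (w * (r v : ℂ))) ^ 2
        + k - 4 * π * (w * (r v : ℂ))) * (w ^ k * (r v : ℂ) ^ k) * E))) * hA1
    · rw [if_neg hv]
      have hcv : c v = 0 := by simp only [hc]; exact if_neg hv
      rw [hcv]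
      ring
  have hD : ∀ j w, 0 < w.re → HasDerivAt (Fk r c j) (Fk r c (j + 1) w) w := fun j w hw =>
    Fk_deriv r c r0 c1 hs j w hw
  have hopen : IsOpen {w : ℂ | 0 < w.re} := isOpen_lt continuous_const Complex.continuous_re
  have hinv : ∀ w : ℂ, 0 < w.re → 0 < (w⁻¹).re := by
    intro w hw
    rw [Complex.inv_re]
    exact div_pos hw (Complex.normSq_pos.2 (fun h => by rw [h] at hw; simp at hw))
  refine ⟨?_, ?_⟩
  · intro w hw
    have hw' : 0 < w.re := hw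
    have h1 : DifferentiableAt ℂ (fun w => A * w ^ k * (((k : ℂ) ^ 2 + k) * Fk r c k w +
        (2 * k + 2) * w * Fk r c (k + 1) w + w ^ 2 * Fk r c (k + 2) w)) w := by
      have d0 := (hD k w hw').differentiableAt
      have d1 := (hD (k + 1) w hw').differentiableAt
      have d2 := (hD (k + 2) w hw').differentiableAt
      have a1 : DifferentiableAt ℂ (fun w : ℂ => A * w ^ k) w :=
        (differentiableAt_id.pow k).const_mul A
      have a2 : DifferentiableAt ℂ (fun w : ℂ => (2 * (k : ℂ) + 2) * w) w :=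
        differentiableAt_id.const_mul _
      have a3 : DifferentiableAt ℂ (fun w : ℂ => w ^ 2) w := differentiableAt_id.pow 2
      exact a1.mul (((d0.const_mul _).add (a2.mul d1)).add (a3.mul d2))
    refine (h1.congr_of_eventuallyEq ?_).differentiableWithinAt
    filter_upwards [hopen.mem_nhds hw] with z hz
    exact hP z hz
  · have hne : ∀ w : ℂ, 0 < w.re → w ≠ 0 := fun w hw h => by rw [h] at hw; simp at hw
    have hA0 : A ≠ 0 := by
      rw [hA]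
      exact inv_ne_zero hπ
    have hfe : ∀ w : ℂ, 0 < w.re → Fk r c k w⁻¹ = w ^ (2 * k + 1) * Fk r c k w := fun w hw => by
      have h := (hTHHm m n L x y hm hn hL hy).2 w hw
      rw [hF0, hF0] at h
      have hw0 := hne w hw
      have hwk : w ^ k ≠ 0 := pow_ne_zero _ hw0
      rw [inv_pow] at h
      have h' : A * ((w ^ k)⁻¹ * Fk r c k w⁻¹) = A * (w * w ^ k * Fk r c k w) := by
        rw [← mul_assoc, h]
        ring
      have h'' := mul_left_cancel₀ hA0 h'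
      rw [inv_mul_eq_iff_eq_mul₀ hwk] at h''
      rw [h'']
      ring
    have h1 : ∀ w : ℂ, 0 < w.re → Fk r c (k + 1) w⁻¹ * (-(w ^ 2)⁻¹) =
        ((2 * k + 1 : ℕ) : ℂ) * w ^ (2 * k) * Fk r c k w +
          w ^ (2 * k + 1) * Fk r c (k + 1) w := by
      intro w hw
      have a1 : HasDerivAt (fun z : ℂ => Fk r c k z⁻¹) (Fk r c (k + 1) w⁻¹ * (-(w ^ 2)⁻¹)) w :=
        (hD k w⁻¹ (hinv w hw)).comp w (hasDerivAt_inv (hne w hw))
      have a2 : HasDerivAt (fun z : ℂ => z ^ (2 * k + 1) * Fk r c k z)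
          (((2 * k + 1 : ℕ) : ℂ) * w ^ (2 * k) * Fk r c k w +
            w ^ (2 * k + 1) * Fk r c (k + 1) w) w :=
        (hasDerivAt_pow (2 * k + 1) w).mul (hD k w hw)
      have a3 : (fun z : ℂ => Fk r c k z⁻¹) =ᶠ[nhds w] fun z => z ^ (2 * k + 1) * Fk r c k z := by
        filter_upwards [hopen.mem_nhds hw] with z hz
        exact hfe z hz
      exact ((a2.congr_of_eventuallyEq a3).unique a1).symm
    have h2 : ∀ w : ℂ, 0 < w.re →
        (Fk r c (k + 2) w⁻¹ * (-(w ^ 2)⁻¹)) * (-(w ^ 2)⁻¹) +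
          Fk r c (k + 1) w⁻¹ * (2 * (w ^ 3)⁻¹) =
        (((2 * k + 1 : ℕ) : ℂ) * (((2 * k : ℕ) : ℂ) * w ^ (2 * k - 1))) * Fk r c k w +
        ((2 * k + 1 : ℕ) : ℂ) * w ^ (2 * k) * Fk r c (k + 1) w +
        ((((2 * k + 1 : ℕ) : ℂ) * w ^ (2 * k)) * Fk r c (k + 1) w +
          w ^ (2 * k + 1) * Fk r c (k + 2) w) := by
      intro w hw
      have hw0 := hne w hw
      have a1 : HasDerivAt (fun z : ℂ => Fk r c (k + 1) z⁻¹)
          (Fk r c (k + 2) w⁻¹ * (-(w ^ 2)⁻¹)) w :=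
        (hD (k + 1) w⁻¹ (hinv w hw)).comp w (hasDerivAt_inv hw0)
      have b1 : HasDerivAt (fun z : ℂ => -(z ^ 2)⁻¹) (2 * (w ^ 3)⁻¹) w := by
        have b0 := ((hasDerivAt_pow 2 w).inv (pow_ne_zero 2 hw0)).neg
        have e : -(-((2 : ℕ) * w ^ (2 - 1)) / (w ^ 2) ^ 2) = 2 * (w ^ 3)⁻¹ := by
          push_cast
          field_simp
        rw [e] at b0
        exact b0
      have a2 := a1.mul b1
      have c0 : HasDerivAt (fun z : ℂ => ((2 * k + 1 : ℕ) : ℂ) * z ^ (2 * k) * Fk r c k z)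
          ((((2 * k + 1 : ℕ) : ℂ) * (((2 * k : ℕ) : ℂ) * w ^ (2 * k - 1))) * Fk r c k w +
        ((2 * k + 1 : ℕ) : ℂ) * w ^ (2 * k) * Fk r c (k + 1) w) w :=
        ((hasDerivAt_pow (2 * k) w).const_mul _).mul (hD k w hw)
      have c1' : HasDerivAt (fun z : ℂ => z ^ (2 * k + 1) * Fk r c (k + 1) z)
          ((((2 * k + 1 : ℕ) : ℂ) * w ^ (2 * k)) * Fk r c (k + 1) w +
          w ^ (2 * k + 1) * Fk r c (k + 2) w) w :=
        (hasDerivAt_pow (2 * k + 1) w).mul (hD (k + 1) w hw)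
      have c2 := c0.add c1'
      have a3 : (fun z : ℂ => Fk r c (k + 1) z⁻¹ * (-(z ^ 2)⁻¹)) =ᶠ[nhds w]
          fun z => ((2 * k + 1 : ℕ) : ℂ) * z ^ (2 * k) * Fk r c k z +
            z ^ (2 * k + 1) * Fk r c (k + 1) z := by
        filter_upwards [hopen.mem_nhds hw] with z hz
        exact h1 z hz
      exact ((c2.congr_of_eventuallyEq a3).unique a2).symm
    intro w hw
    rw [hP _ (hinv w hw), hP w hw]
    exact fe_alg hk1 (hne w hw) (hfe w hw) (h1 w hw) (h2 w hw)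

end Pool.Agent.H94.FC

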